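import Mathlib
import Pool.Agent.MP_da4a48_co.H93.Core

set_option autoImplicit false

namespace Pool.Agent.Results.MP_da4a48_co.Vectors

/-- The number of coordinates in which both `0`-`1` vectors equal `1`. -/
def m {n : ℕ} (a b : Fin n → Bool) : ℕ := ∑ t, (a t && b t).toNat

/-- The support of a `0`-`1` vector. -/
def supp {n : ℕ} : (Fin n → Bool) ≃ Finset (Fin n) where
  toFun a := Finset.univ.filter fun t => a t = true
  invFun S := fun t => decide (t ∈ S)
  left_inv a := by ext t; simp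
  right_inv S := by ext t; simp

theorem m_eq {n : ℕ} (a b : Fin n → Bool) : m a b = (supp a ∩ supp b).card := by
  have h : supp a ∩ supp b = Finset.univ.filter fun t => (a t && b t) = true := by
    ext t; simp [supp]
  rw [h, Finset.card_filter, m]
  refine Finset.sum_congr rfl fun t _ => ?_
  cases (a t && b t) <;> simp

/-- Ahlswede's conjecture: the largest product `|A| |B|` over pairs of sets of `0`-`1` vectors with
constant cross intersection `δ` exists and equals the largest of the numbers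
`2 ^ k * (n - k).choose δ`, `0 ≤ k ≤ n - δ`. -/
theorem result (n δ : ℕ) (hδ : δ ≤ n) :
    ∃ M : ℕ,
      IsGreatest {p : ℕ | ∃ A B : Finset (Fin n → Bool),
        (∀ a ∈ A, ∀ b ∈ B, m a b = δ) ∧ p = A.card * B.card} M ∧
      IsGreatest {q : ℕ | ∃ k : ℕ, k + δ ≤ n ∧ q = 2 ^ k * (n - k).choose δ} M := by
  obtain ⟨⟨A, B, hAB, hM⟩, hub⟩ := MP_da4a48_co.H93.sets_version n δ hδ
  refine ⟨(Finset.range (n - δ + 1)).sup (fun k => 2 ^ k * Nat.choose (n - k) δ),
    ⟨⟨A.map supp.symm.toEmbedding, B.map supp.symm.toEmbedding, ?_, ?_⟩, ?_⟩, ?_, ?_⟩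
  · intro a ha b hb
    obtain ⟨a', ha', rfl⟩ := Finset.mem_map.1 ha
    obtain ⟨b', hb', rfl⟩ := Finset.mem_map.1 hb
    rw [m_eq]
    simpa using hAB a' ha' b' hb'
  · rw [Finset.card_map, Finset.card_map, hM]
  · rintro p ⟨A', B', h, rfl⟩
    refine hub ⟨A'.map supp.toEmbedding, B'.map supp.toEmbedding, ?_, ?_⟩
    · intro a ha b hb
      obtain ⟨a', ha', rfl⟩ := Finset.mem_map.1 ha
      obtain ⟨b', hb', rfl⟩ := Finset.mem_map.1 hb
      rw [← h a' ha' b' hb', m_eq]
      rfl
    · rw [Finset.card_map, Finset.card_map]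
  · obtain ⟨k, hk, hsup⟩ := Finset.exists_mem_eq_sup (Finset.range (n - δ + 1))
      ⟨0, Finset.mem_range.2 (Nat.succ_pos _)⟩ (fun k => 2 ^ k * Nat.choose (n - k) δ)
    exact ⟨k, by have := Finset.mem_range.1 hk; omega, hsup⟩
  · rintro q ⟨k, hk, rfl⟩
    exact Finset.le_sup (f := fun k => 2 ^ k * Nat.choose (n - k) δ)
      (Finset.mem_range.2 (by omega))

end Pool.Agent.Results.MP_da4a48_co.Vectors
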